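import Mathlib
import Pool.Agent.Helper38.TM.Defs

/-!
# TM-A5: all triples

`D ≠ 0`, `|D| ≤ X`, `y ≠ 0`, `y² = D f(x)`. Write `D = D₀ m²`, `D₀` squarefree, `m ≥ 1`. Then `y = m y'`,
`y'² = D₀ f(x)`, `x ∈ XSet f (X / m²)`; `D₀` is determined by `x` and `y'` up to sign. So the number of triples is at
most `2 ∑_{1 ≤ m, m² ≤ X} ncard (XSet f (X / m²))`, summed as in `Helper38.TW.count_all`.
-/

set_option autoImplicit false

namespace Pool.Agent.Helper31.TM

open Finset Polynomial Pool.Agent.Helper38.TW Pool.Agent.Helper38.TM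

/-- all triples -/
def TS (f : ℤ[X]) (X : ℕ) : Set (ℤ × ℤ × ℤ) :=
  {P | P.1 ≠ 0 ∧ |P.1| ≤ (X : ℤ) ∧ P.2.2 ≠ 0 ∧ P.2.2 ^ 2 = P.1 * f.eval P.2.1}

/-- those with square part `m²` -/
def US (f : ℤ[X]) (Y m : ℕ) : Set (ℤ × ℤ × ℤ) :=
  {P | ∃ D y : ℤ, Squarefree D ∧ |D| ≤ (Y : ℤ) ∧ y ≠ 0 ∧ y ^ 2 = D * f.eval P.2.1 ∧
    P.1 = D * (m : ℤ) ^ 2 ∧ P.2.2 = m * y}

private theorem twist_unique {f : ℤ[X]} {D D' x y y' : ℤ} (hD : Squarefree D) (hD' : Squarefree D')
    (hy : y ≠ 0) (h : y ^ 2 = D * f.eval x) (h' : y' ^ 2 = D' * f.eval x) : D = D' := by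
  have hD0 : D ≠ 0 := hD.ne_zero
  have hf0 : f.eval x ≠ 0 := by
    intro h0
    rw [h0, mul_zero] at h
    exact hy (pow_eq_zero_iff two_ne_zero |>.mp h)
  have h1 : (f.eval x) ^ 2 ∣ (y * y') ^ 2 := by
    refine ⟨D * D', ?_⟩
    rw [mul_pow, h, h']
    ring
  obtain ⟨w, hw⟩ := (Int.pow_dvd_pow_iff two_ne_zero).1 h1
  have h2 : D * D' = w ^ 2 := by
    have h3 : (f.eval x) ^ 2 * (D * D') = (f.eval x) ^ 2 * w ^ 2 := by
      rw [← mul_pow, ← hw, mul_pow, h, h']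
      ring
    exact mul_left_cancel₀ (pow_ne_zero 2 hf0) h3
  have h3 : D ∣ w := (hD.dvd_pow_iff_dvd two_ne_zero).mp ⟨D', h2.symm⟩
  obtain ⟨v, rfl⟩ := h3
  have h4 : D' = D * v ^ 2 := by
    apply mul_left_cancel₀ hD0
    rw [h2]
    ring
  have h5 : IsUnit v := hD' v ⟨D, by rw [h4]; ring⟩
  rcases Int.isUnit_iff.1 h5 with h6 | h6 <;> rw [h4, h6] <;> ring

private theorem us_bound (f : ℤ[X]) (Y m : ℕ) (hfin : (XSet f Y).Finite) :
    (US f Y m).Finite ∧ (US f Y m).ncard ≤ 2 * (XSet f Y).ncard := by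
  classical
  have h0 : ∀ x ∈ XSet f Y, ∃ D y : ℤ, Squarefree D ∧ |D| ≤ (Y : ℤ) ∧ y ≠ 0 ∧
      y ^ 2 = D * f.eval x := fun x hx => hx
  choose! d e hde using h0
  have hsub : US f Y m ⊆ ((fun x : ℤ => ((d x * (m : ℤ) ^ 2, x, m * e x) : ℤ × ℤ × ℤ)) '' XSet f Y) ∪
      ((fun x : ℤ => ((d x * (m : ℤ) ^ 2, x, m * (-e x)) : ℤ × ℤ × ℤ)) '' XSet f Y) := by
    rintro ⟨A, x, B⟩ ⟨D, y, hD, hDY, hy, h, hA, hB⟩
    simp only at h hA hB
    have hx : x ∈ XSet f Y := ⟨D, y, hD, hDY, hy, h⟩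
    obtain ⟨h1, h2, h3, h4⟩ := hde x hx
    have hDD : D = d x := twist_unique hD h1 hy h h4
    have hyy : y ^ 2 = e x ^ 2 := by rw [h, h4, hDD]
    rcases sq_eq_sq_iff_eq_or_eq_neg.1 hyy with h5 | h5
    · left
      refine ⟨x, hx, ?_⟩
      simp only [Prod.mk.injEq]
      exact ⟨by rw [hA, hDD], trivial, by rw [hB, h5]⟩
    · right
      refine ⟨x, hx, ?_⟩
      simp only [Prod.mk.injEq]
      exact ⟨by rw [hA, hDD], trivial, by rw [hB, h5]⟩
  have hfin2 := (hfin.image (fun x : ℤ => ((d x * (m : ℤ) ^ 2, x, m * e x) : ℤ × ℤ × ℤ))).union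
    (hfin.image (fun x : ℤ => ((d x * (m : ℤ) ^ 2, x, m * (-e x)) : ℤ × ℤ × ℤ)))
  refine ⟨hfin2.subset hsub, ?_⟩
  refine (Set.ncard_le_ncard hsub hfin2).trans ((Set.ncard_union_le _ _).trans ?_)
  have h1 := Set.ncard_image_le (f := fun x : ℤ => ((d x * (m : ℤ) ^ 2, x, m * e x) : ℤ × ℤ × ℤ)) hfin
  have h2 := Set.ncard_image_le (f := fun x : ℤ => ((d x * (m : ℤ) ^ 2, x, m * (-e x)) : ℤ × ℤ × ℤ)) hfin
  omega

private theorem all_sub (f : ℤ[X]) (X : ℕ) :
    TS f X ⊆ ⋃ m ∈ (Finset.Icc 1 X).filter (fun m => m ^ 2 ≤ X), US f (X / m ^ 2) m := by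
  rintro ⟨D, x, y⟩ ⟨hD, hX, hy, h⟩
  simp only at hD hX hy h
  obtain ⟨a, b, hab, hsq⟩ := Nat.sq_mul_squarefree D.natAbs
  have hDn : D.natAbs ≠ 0 := Int.natAbs_ne_zero.2 hD
  have hb : b ≠ 0 := by
    rintro rfl
    apply hDn
    rw [← hab]
    simp
  have ha : a ≠ 0 := by
    rintro rfl
    apply hDn
    rw [← hab]
    simp
  have hDX : D.natAbs ≤ X := by
    have h1 : ((D.natAbs : ℕ) : ℤ) ≤ X := by
      rw [Int.natCast_natAbs]
      exact hX
    exact_mod_cast h1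
  have hbX : b ^ 2 ≤ X := by
    calc b ^ 2 = b ^ 2 * 1 := (mul_one _).symm
      _ ≤ b ^ 2 * a := Nat.mul_le_mul_left _ (Nat.one_le_iff_ne_zero.2 ha)
      _ = D.natAbs := hab
      _ ≤ X := hDX
  have hb1 : 1 ≤ b := Nat.one_le_iff_ne_zero.2 hb
  have hDe : D = D.sign * a * (b : ℤ) ^ 2 := by
    conv_lhs => rw [← Int.sign_mul_natAbs D, ← hab]
    push_cast
    ring
  have hb2 : (b : ℤ) ^ 2 ≠ 0 := pow_ne_zero 2 (by exact_mod_cast hb)
  have h2 : (b : ℤ) ^ 2 ∣ y ^ 2 := by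
    rw [h]
    refine Dvd.dvd.mul_right ?_ _
    conv_rhs => rw [hDe]
    exact Dvd.intro_left _ rfl
  obtain ⟨y', hy'⟩ := (Int.pow_dvd_pow_iff two_ne_zero).1 h2
  have hna : (D.sign * a).natAbs = a := by
    rw [Int.natAbs_mul, Int.natAbs_sign_of_ne_zero hD, one_mul, Int.natAbs_natCast]
  rw [Set.mem_iUnion₂]
  refine ⟨b, Finset.mem_filter.2 ⟨Finset.mem_Icc.2 ⟨hb1, ?_⟩, hbX⟩, D.sign * a, y', ?_, ?_, ?_, ?_,
    hDe, hy'⟩
  · calc b = b ^ 1 := (pow_one b).symm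
      _ ≤ b ^ 2 := Nat.pow_le_pow_right hb1 (by norm_num)
      _ ≤ X := hbX
  · rw [← Int.squarefree_natAbs, hna]
    exact hsq
  · rw [← Int.natCast_natAbs, hna]
    have h2 : a ≤ X / b ^ 2 := by
      rw [Nat.le_div_iff_mul_le (by positivity), mul_comm, hab]
      exact hDX
    exact_mod_cast h2
  · rintro rfl
    exact hy (by rw [hy', mul_zero])
  · apply mul_left_cancel₀ hb2
    simp only
    rw [← mul_pow, ← hy', h]
    conv_lhs => rw [hDe]
    ring

theorem count_all_x (f : ℤ[X]) (hfin : ∀ X : ℕ, (XSet f X).Finite)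
    (H : ∃ C c : ℝ, 0 < C ∧ 0 < c ∧ ∀ X : ℕ, 2 ≤ X →
      ((XSet f X).ncard : ℝ) ≤ C * X / (Real.log X) ^ c) :
    ∃ C c : ℝ, 0 < C ∧ 0 < c ∧ ∀ X : ℕ, 2 ≤ X →
      {P : ℤ × ℤ × ℤ | P.1 ≠ 0 ∧ |P.1| ≤ X ∧ P.2.2 ≠ 0 ∧
        P.2.2 ^ 2 = P.1 * f.eval P.2.1}.Finite ∧
      (({P : ℤ × ℤ × ℤ | P.1 ≠ 0 ∧ |P.1| ≤ X ∧ P.2.2 ≠ 0 ∧
        P.2.2 ^ 2 = P.1 * f.eval P.2.1}.ncard : ℕ) : ℝ) ≤ C * X / (Real.log X) ^ c := by
  classical
  obtain ⟨C, c, hC, hc, hcount⟩ := H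
  have hsum : Summable fun m : ℕ => 1 / (m : ℝ) ^ (3 / 2 : ℝ) :=
    Real.summable_one_div_nat_rpow.2 (by norm_num)
  set Z : ℝ := ∑' m : ℕ, 1 / (m : ℝ) ^ (3 / 2 : ℝ) with hZ
  have hZ1 : 0 ≤ Z := tsum_nonneg fun m => by positivity
  have hl2 : 0 < Real.log 2 := Real.log_pos (by norm_num)
  have hl2c : 0 < Real.log 2 ^ c := Real.rpow_pos_of_pos hl2 c
  set C' : ℝ := C / Real.log 2 ^ c + ((XSet f 1).ncard : ℝ) with hC'
  have hC'0 : 0 ≤ C' := by positivity
  -- linear bound for all Y ≥ 1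
  have hlin : ∀ Y : ℕ, 1 ≤ Y → ((XSet f Y).ncard : ℝ) ≤ C' * Y := by
    intro Y hY
    rcases Nat.lt_or_ge Y 2 with h | h
    · obtain rfl : Y = 1 := by omega
      have : 0 ≤ C / Real.log 2 ^ c := by positivity
      rw [hC']
      push_cast
      linarith
    · have h1 := hcount Y h
      have hYr : (2 : ℝ) ≤ Y := by exact_mod_cast h
      have h2 : Real.log 2 ^ c ≤ Real.log Y ^ c :=
        Real.rpow_le_rpow hl2.le (Real.log_le_log (by norm_num) hYr) hc.le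
      calc ((XSet f Y).ncard : ℝ) ≤ C * Y / Real.log Y ^ c := h1
        _ ≤ C * Y / Real.log 2 ^ c := by gcongr
        _ = (C / Real.log 2 ^ c) * Y := by ring
        _ ≤ C' * Y := by
            have h3 : C / Real.log 2 ^ c ≤ C' := by
              rw [hC']
              have : (0 : ℝ) ≤ ((XSet f 1).ncard : ℝ) := by positivity
              linarith
            gcongr
  have hfinU : ∀ X : ℕ, (⋃ m ∈ (Finset.Icc 1 X).filter (fun m => m ^ 2 ≤ X),
      US f (X / m ^ 2) m).Finite := fun X =>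
    Set.Finite.biUnion (Finset.finite_toSet _) fun m _ => (us_bound f _ m (hfin _)).1
  have hTfin : ∀ X : ℕ, (TS f X).Finite := fun X => (hfinU X).subset (all_sub f X)
  set K : ℝ := C * 4 ^ c + C' * (8 * c) ^ c with hK
  have hK0 : 0 < K := by positivity
  set N16 : ℝ := ((TS f 16).ncard : ℝ) with hN16
  have hN0 : 0 ≤ N16 := by positivity
  refine ⟨2 * (K * Z) + N16 * 3 ^ c + 1, c, by positivity, hc, fun X hX => ⟨hTfin X, ?_⟩⟩
  change (((TS f X).ncard : ℕ) : ℝ) ≤ _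
  have hX0 : (0 : ℝ) < X := by
    have : 0 < X := by omega
    exact_mod_cast this
  have hlog : 0 < Real.log X := Real.log_pos (by exact_mod_cast (show 1 < X by omega))
  have hlc : 0 < Real.log X ^ c := Real.rpow_pos_of_pos hlog c
  by_cases hX16 : X < 16
  · -- trivial bound
    have hsub : TS f X ⊆ TS f 16 := by
      rintro P ⟨h1, h2, h3, h4⟩
      refine ⟨h1, h2.trans ?_, h3, h4⟩
      exact_mod_cast hX16.le
    have h2 : (((TS f X).ncard : ℕ) : ℝ) ≤ N16 := by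
      rw [hN16]
      exact_mod_cast Set.ncard_le_ncard hsub (hTfin 16)
    refine h2.trans ?_
    rw [le_div_iff₀ hlc]
    have h5 : Real.log X ≤ 3 := by
      have h6 : Real.log X ≤ Real.log 16 := by
        apply Real.log_le_log hX0
        exact_mod_cast hX16.le
      have h7 : Real.log 16 = 4 * Real.log 2 := by
        rw [show (16 : ℝ) = 2 ^ 4 by norm_num, Real.log_pow]
        norm_num
      have h8 := Real.log_two_lt_d9
      linarith
    have h6 : Real.log X ^ c ≤ 3 ^ c := Real.rpow_le_rpow hlog.le h5 hc.le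
    have h7 : 0 ≤ (2 * (K * Z) + 1) * X := by positivity
    have hX1 : (1 : ℝ) ≤ X := by exact_mod_cast (show 1 ≤ X by omega)
    have h8 : 0 ≤ N16 * 3 ^ c := by positivity
    calc N16 * Real.log X ^ c ≤ N16 * 3 ^ c := by gcongr
      _ ≤ N16 * 3 ^ c * X := by nlinarith
      _ ≤ (2 * (K * Z) + N16 * 3 ^ c + 1) * X := by linarith
  · have hX16' : 16 ≤ X := not_lt.1 hX16
    have hX8 : Real.log X ^ c ≤ (8 * c) ^ c * (X : ℝ) ^ (1 / 8 : ℝ) := by
      have h1 : Real.log X ≤ (X : ℝ) ^ (1 / (8 * c)) / (1 / (8 * c)) :=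
        Real.log_le_rpow_div hX0.le (by positivity)
      have h2 : (X : ℝ) ^ (1 / (8 * c)) / (1 / (8 * c)) = (8 * c) * (X : ℝ) ^ (1 / (8 * c)) := by
        rw [div_div_eq_mul_div, div_one, mul_comm]
      rw [h2] at h1
      calc Real.log X ^ c ≤ ((8 * c) * (X : ℝ) ^ (1 / (8 * c))) ^ c :=
            Real.rpow_le_rpow hlog.le h1 hc.le
        _ = (8 * c) ^ c * (X : ℝ) ^ (1 / 8 : ℝ) := by
            rw [Real.mul_rpow (by positivity) (by positivity), ← Real.rpow_mul hX0.le]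
            congr 2
            field_simp
    have hterm : ∀ m ∈ (Finset.Icc 1 X).filter (fun m => m ^ 2 ≤ X),
        ((XSet f (X / m ^ 2)).ncard : ℝ) ≤
          (K * X / Real.log X ^ c) * (1 / (m : ℝ) ^ (3 / 2 : ℝ)) := by
      intro m hm
      obtain ⟨hm1, hm2⟩ := Finset.mem_filter.1 hm
      have hm1' : 1 ≤ m := (Finset.mem_Icc.1 hm1).1
      have hm0 : (0 : ℝ) < m := by exact_mod_cast hm1'
      have hm1r : (1 : ℝ) ≤ m := by exact_mod_cast hm1'
      have hY : ((X / m ^ 2 : ℕ) : ℝ) ≤ X / (m : ℝ) ^ 2 := by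
        have := @Nat.cast_div_le ℝ _ _ _ X (m ^ 2)
        push_cast at this
        exact this
      have hpow : 1 / (m : ℝ) ^ 2 ≤ 1 / (m : ℝ) ^ (3 / 2 : ℝ) := by
        apply one_div_le_one_div_of_le (Real.rpow_pos_of_pos hm0 _)
        rw [← Real.rpow_natCast (m : ℝ) 2]
        exact Real.rpow_le_rpow_of_exponent_le hm1r (by norm_num)
      by_cases h4 : m ^ 4 ≤ X
      · -- main range
        set t := Nat.sqrt X with ht
        have ht1 : t * t ≤ X := Nat.sqrt_le X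
        have ht2 : X < (t + 1) * (t + 1) := Nat.lt_succ_sqrt X
        have ht4 : 4 ≤ t := by
          rw [ht, Nat.le_sqrt]
          omega
        have hmt : m ^ 2 ≤ t := by
          rw [ht, Nat.le_sqrt]
          calc m ^ 2 * m ^ 2 = m ^ 4 := by ring
            _ ≤ X := h4
        have hYt : t ≤ X / m ^ 2 := by
          rw [Nat.le_div_iff_mul_le (by positivity)]
          exact (Nat.mul_le_mul_left t hmt).trans ht1
        have hXY : X ≤ (X / m ^ 2) ^ 4 := by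
          have h5 : (t + 1) ≤ t * t := by nlinarith
          calc X ≤ (t + 1) * (t + 1) := ht2.le
            _ ≤ (t * t) * (t * t) := Nat.mul_le_mul h5 h5
            _ = t ^ 4 := by ring
            _ ≤ (X / m ^ 2) ^ 4 := Nat.pow_le_pow_left hYt 4
        have hY2 : 2 ≤ X / m ^ 2 := by omega
        have hYlog : Real.log X / 4 ≤ Real.log (X / m ^ 2 : ℕ) := by
          have h5 : Real.log X ≤ Real.log (((X / m ^ 2 : ℕ) : ℝ) ^ 4) := by
            apply Real.log_le_log hX0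
            exact_mod_cast hXY
          rw [Real.log_pow] at h5
          push_cast at h5
          have h6 : Real.log X / 4 ≤ 4 * Real.log ((X / m ^ 2 : ℕ) : ℝ) / 4 := by
            push_cast
            linarith
          linarith
        have h5 := hcount (X / m ^ 2) hY2
        have h6 : (Real.log X / 4) ^ c ≤ Real.log (X / m ^ 2 : ℕ) ^ c :=
          Real.rpow_le_rpow (by positivity) hYlog hc.le
        have h7 : (Real.log X / 4) ^ c = Real.log X ^ c / 4 ^ c :=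
          Real.div_rpow hlog.le (by norm_num) c
        have h8 : 0 < (Real.log X / 4) ^ c := Real.rpow_pos_of_pos (by positivity) c
        calc ((XSet f (X / m ^ 2)).ncard : ℝ) ≤
              C * ((X / m ^ 2 : ℕ) : ℝ) / Real.log (X / m ^ 2 : ℕ) ^ c := h5
          _ ≤ C * (X / (m : ℝ) ^ 2) / (Real.log X / 4) ^ c := by
              gcongr
          _ = (C * 4 ^ c * X / Real.log X ^ c) * (1 / (m : ℝ) ^ 2) := by
              rw [h7]
              field_simp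
          _ ≤ (K * X / Real.log X ^ c) * (1 / (m : ℝ) ^ (3 / 2 : ℝ)) := by
              have h9 : C * 4 ^ c ≤ K := by
                rw [hK]
                have : 0 ≤ C' * (8 * c) ^ c := by positivity
                linarith
              gcongr
      · have h4' : X < m ^ 4 := not_le.1 h4
        have hY1 : 1 ≤ X / m ^ 2 := by
          rw [Nat.one_le_div_iff (by positivity)]
          exact hm2
        have h6 : ((XSet f (X / m ^ 2)).ncard : ℝ) ≤ C' * (X / (m : ℝ) ^ 2) := by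
          calc ((XSet f (X / m ^ 2)).ncard : ℝ) ≤ C' * ((X / m ^ 2 : ℕ) : ℝ) := hlin _ hY1
            _ ≤ C' * (X / (m : ℝ) ^ 2) := by gcongr
        have h8 : (X : ℝ) ^ (1 / 8 : ℝ) ≤ (m : ℝ) ^ (1 / 2 : ℝ) := by
          have h9 : (X : ℝ) ≤ (m : ℝ) ^ (4 : ℕ) := by exact_mod_cast h4'.le
          calc (X : ℝ) ^ (1 / 8 : ℝ) ≤ ((m : ℝ) ^ (4 : ℕ)) ^ (1 / 8 : ℝ) :=
                Real.rpow_le_rpow hX0.le h9 (by norm_num)
            _ = (m : ℝ) ^ (1 / 2 : ℝ) := by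
                rw [← Real.rpow_natCast (m : ℝ) 4, ← Real.rpow_mul hm0.le]
                norm_num
        have h10 : (m : ℝ) ^ 2 = (m : ℝ) ^ (1 / 2 : ℝ) * (m : ℝ) ^ (3 / 2 : ℝ) := by
          rw [← Real.rpow_add hm0, ← Real.rpow_natCast (m : ℝ) 2]
          norm_num
        have hm12 : 0 < (m : ℝ) ^ (1 / 2 : ℝ) := Real.rpow_pos_of_pos hm0 _
        have hm32 : 0 < (m : ℝ) ^ (3 / 2 : ℝ) := Real.rpow_pos_of_pos hm0 _
        have h11 : Real.log X ^ c ≤ (8 * c) ^ c * (m : ℝ) ^ (1 / 2 : ℝ) :=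
          hX8.trans (by gcongr)
        have h12 : 1 / (m : ℝ) ^ (1 / 2 : ℝ) ≤ (8 * c) ^ c / Real.log X ^ c := by
          rw [div_le_div_iff₀ hm12 hlc, one_mul]
          exact h11
        calc ((XSet f (X / m ^ 2)).ncard : ℝ) ≤ C' * (X / (m : ℝ) ^ 2) := h6
          _ = C' * X * (1 / (m : ℝ) ^ (1 / 2 : ℝ)) * (1 / (m : ℝ) ^ (3 / 2 : ℝ)) := by
              rw [h10]
              field_simp
          _ ≤ C' * X * ((8 * c) ^ c / Real.log X ^ c) * (1 / (m : ℝ) ^ (3 / 2 : ℝ)) := by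
              gcongr
          _ = (C' * (8 * c) ^ c * X / Real.log X ^ c) * (1 / (m : ℝ) ^ (3 / 2 : ℝ)) := by
              ring
          _ ≤ (K * X / Real.log X ^ c) * (1 / (m : ℝ) ^ (3 / 2 : ℝ)) := by
              have h9 : C' * (8 * c) ^ c ≤ K := by
                rw [hK]
                have : 0 ≤ C * 4 ^ c := by positivity
                linarith
              gcongr
    have h1 := (Set.ncard_le_ncard (all_sub f X) (hfinU X)).trans
      (Finset.set_ncard_biUnion_le _ _)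
    have h2 : ∑ m ∈ (Finset.Icc 1 X).filter (fun m => m ^ 2 ≤ X), (US f (X / m ^ 2) m).ncard ≤
        ∑ m ∈ (Finset.Icc 1 X).filter (fun m => m ^ 2 ≤ X), 2 * (XSet f (X / m ^ 2)).ncard :=
      Finset.sum_le_sum fun m _ => (us_bound f _ m (hfin _)).2
    have h3 : (((TS f X).ncard : ℕ) : ℝ) ≤
        ∑ m ∈ (Finset.Icc 1 X).filter (fun m => m ^ 2 ≤ X),
          2 * ((XSet f (X / m ^ 2)).ncard : ℝ) := by
      exact_mod_cast h1.trans h2
    have hsumle : ∑ m ∈ (Finset.Icc 1 X).filter (fun m => m ^ 2 ≤ X),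
        (1 / (m : ℝ) ^ (3 / 2 : ℝ)) ≤ Z :=
      hsum.sum_le_tsum _ fun m _ => by positivity
    have hKX : 0 ≤ K * X / Real.log X ^ c := by positivity
    calc (((TS f X).ncard : ℕ) : ℝ) ≤
        ∑ m ∈ (Finset.Icc 1 X).filter (fun m => m ^ 2 ≤ X),
          2 * ((K * X / Real.log X ^ c) * (1 / (m : ℝ) ^ (3 / 2 : ℝ))) :=
          h3.trans (Finset.sum_le_sum fun m hm => by
            have := hterm m hm
            linarith)
      _ = 2 * ((K * X / Real.log X ^ c) * ∑ m ∈ (Finset.Icc 1 X).filter (fun m => m ^ 2 ≤ X),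
          (1 / (m : ℝ) ^ (3 / 2 : ℝ))) := by rw [← Finset.mul_sum, ← Finset.mul_sum]
      _ ≤ 2 * ((K * X / Real.log X ^ c) * Z) := by
          have := mul_le_mul_of_nonneg_left hsumle hKX
          linarith
      _ = (2 * (K * Z)) * X / Real.log X ^ c := by ring
      _ ≤ (2 * (K * Z) + N16 * 3 ^ c + 1) * X / Real.log X ^ c := by
          have h9 : 2 * (K * Z) ≤ 2 * (K * Z) + N16 * 3 ^ c + 1 := by
            have : (0 : ℝ) ≤ N16 * 3 ^ c := by positivity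
            linarith
          gcongr

end Pool.Agent.Helper31.TM
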